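import Pool.Agent.H49.EvStable

set_option autoImplicit false

namespace Pool.Agent.Results.MP_e85eb4_nt.FourFactors

open Polynomial

/-- Q2(a) is false: `f = x^2 - 17/9`, `α = 407/6561`, `n = 4`. For a polynomial `f` the numerator of
`f^n(x) - α` is the polynomial `f^n(x) - α` itself, and `∞` is not a preimage of `α`. -/
theorem result :
    ∃ (f : ℚ[X]) (α : ℚ) (n : ℕ), f.natDegree = 2 ∧
      (Set.range fun k : ℕ => (fun x => f.eval x)^[k] α).Infinite ∧
      (∀ x : ℚ, f.eval x ≠ α) ∧ 1 ≤ n ∧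
      4 ≤ (UniqueFactorizationMonoid.normalizedFactors ((f.comp)^[n] X - C α)).card :=
  ⟨H49.EvStable.f, 407 / 6561, 4, H49.EvStable.f_deg, H49.EvStable.wandering, H49.EvStable.no_pre,
    by norm_num, H49.EvStable.omega_ge⟩

end Pool.Agent.Results.MP_e85eb4_nt.FourFactors
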