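import Pool.Agent.H49.EvStable

set_option autoImplicit false

namespace Pool.Agent.Results.MP_e85eb4_nt.Unbounded

open Polynomial

/-- Q1 is false for `K = ℚ` and every degree `d` with two distinct prime factors `p ≠ q`:
`f = x^d`, `α = 2^(p^k)`. For a polynomial `f` the numerator of `f^n(x) - α` is the polynomial
`f^n(x) - α` itself, and `∞` is not a preimage of `α`. -/
theorem result (d p q : ℕ) (hp : p.Prime) (hq : q.Prime) (hpq : p ≠ q) (hpd : p ∣ d) (hqd : q ∣ d)
    (hd : 2 ≤ d) (M : ℕ) :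
    ∃ (f : ℚ[X]) (α : ℚ) (n : ℕ), f.natDegree = d ∧
      (Set.range fun k : ℕ => (fun x => f.eval x)^[k] α).Infinite ∧
      (∀ x : ℚ, f.eval x ≠ α) ∧ 1 ≤ n ∧
      M < (UniqueFactorizationMonoid.normalizedFactors ((f.comp)^[n] X - C α)).card :=
  H49.EvStable.unbounded d p q hp hq hpq hpd hqd hd M

end Pool.Agent.Results.MP_e85eb4_nt.Unbounded
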